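import Pool.Agent.Helper70.SUB.SheetW
import Pool.Agent.Helper94.SUBK.SVB

/-!
Project SUBW, row DOMW: sums of `S`-units with slow coefficients and a dominant term.
-/

set_option autoImplicit false

namespace Pool.Agent.Helper99.SUBW

open Filter Finset Pool.Agent.Helper70.SUB Pool.Agent.Helper77.SUBK Pool.Agent.Helper70.SUBL
  Pool.Agent.Helper70.SUBW

section

variable {M : Type} [Field M] [NumberField M] {S : Finset ℕ}

theorem nv_sum_le (P : PF S M) {v : Option ℕ} (hv : v ∈ plc S) {ι : Type} (s : Finset ι)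
    (f : ι → M) : P.nv v (∑ i ∈ s, f i) ≤ ∑ i ∈ s, P.nv v (f i) := by
  classical
  induction s using Finset.induction_on with
  | empty => simp [P.nz]
  | insert i s hi ih =>
    rw [Finset.sum_insert hi, Finset.sum_insert hi]
    exact (P.add v hv _ _).trans (by linarith)

theorem nv_one' (P : PF S M) {v : Option ℕ} (hv : v ∈ plc S) : P.nv v 1 = 1 := by
  have h := P.mul v hv 1 1
  have h0 := P.pos v hv 1 one_ne_zero
  rw [mul_one] at h
  nlinarith

theorem nv_pow' (P : PF S M) {v : Option ℕ} (hv : v ∈ plc S) (z : M) (n : ℕ) :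
    P.nv v (z ^ n) = P.nv v z ^ n := by
  induction n with
  | zero => rw [pow_zero, pow_zero, nv_one' P hv]
  | succ n ih => rw [pow_succ, pow_succ, P.mul v hv, ih]

theorem nv_int (P : PF S M) (x : ℤ) : P.nv none (x : M) = |(x : ℝ)| := by
  have h := P.ext none mem_none (x : ℚ)
  simpa [av] using h

/-- a representation with few terms -/
def Rep (P : PF S M) (φ : Ultrafilter ℕ) (X : ℕ → ℝ) {t : ℕ} (c a : Fin t → ℕ → M)
    (s : Finset (Fin t)) : Prop :=
  (∀ i ∈ s, ¬ ∀ᶠ j in (φ : Filter ℕ), c i j = 0) ∧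
  ∃ c' : Fin t → ℕ → M, (∀ i, Slw P φ X (c' i)) ∧
    ∀ᶠ j in (φ : Filter ℕ), ∑ i ∈ s, c' i j * a i j = ∑ i, c i j * a i j

/-- a minimal representation -/
theorem exists_rep [IsGalois ℚ M] (hSLW : ST_SLW) (P : PF S M) (hS : ∀ p ∈ S, p.Prime)
    (φ : Ultrafilter ℕ) (X : ℕ → ℝ) (hX : Tendsto X (φ : Filter ℕ) atTop) {t : ℕ}
    (c a : Fin t → ℕ → M) (hc : ∀ i, Slw P φ X (c i)) :
    ∃ (s : Finset (Fin t)) (c' : Fin t → ℕ → M),
      (∀ i ∈ s, ¬ ∀ᶠ j in (φ : Filter ℕ), c i j = 0) ∧ (∀ i, Slw P φ X (c' i)) ∧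
      (∀ᶠ j in (φ : Filter ℕ), ∑ i ∈ s, c' i j * a i j = ∑ i, c i j * a i j) ∧
      (∀ i ∈ s, ∀ᶠ j in (φ : Filter ℕ), c' i j ≠ 0) ∧
      ∀ (α : Fin t → M), ∀ i₀ ∈ s, α i₀ ≠ 0 →
        ¬ ∀ᶠ j in (φ : Filter ℕ), ∑ i ∈ s, α i * (c' i j * a i j) = 0 := by
  classical
  obtain ⟨h1, h2, -⟩ := hSLW M S P φ X hS hX
  have hne : (Finset.univ.filter (Rep P φ X c a)).Nonempty := by
    refine ⟨Finset.univ.filter fun i => ¬ ∀ᶠ j in (φ : Filter ℕ), c i j = 0, ?_⟩
    rw [Finset.mem_filter]
    refine ⟨Finset.mem_univ _, fun i hi => (Finset.mem_filter.1 hi).2, c, hc, ?_⟩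
    have h3 : ∀ᶠ j in (φ : Filter ℕ), ∀ i : Fin t,
        (∀ᶠ j in (φ : Filter ℕ), c i j = 0) → c i j = 0 := by
      rw [Filter.eventually_all]
      intro i
      by_cases h : ∀ᶠ j in (φ : Filter ℕ), c i j = 0
      · filter_upwards [h] with j hj _ using hj
      · exact Filter.Eventually.of_forall fun j hj => absurd hj h
    filter_upwards [h3] with j hj
    rw [Finset.sum_filter]
    refine Finset.sum_congr rfl fun i _ => ?_
    split_ifs with h
    · rw [hj i h, zero_mul]
    · rfl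
  obtain ⟨s, hs, hmin⟩ := Finset.exists_min_image _ Finset.card hne
  obtain ⟨-, hs1, c', hc', he⟩ := Finset.mem_filter.1 hs
  have hsm : ∀ s' : Finset (Fin t), s'.card < s.card → ¬ Rep P φ X c a s' := fun s' hlt hr =>
    absurd (hmin s' (Finset.mem_filter.2 ⟨Finset.mem_univ _, hr⟩)) (by omega)
  refine ⟨s, c', hs1, hc', he, fun i hi => ?_, fun α i₀ hi₀ hα h0 => ?_⟩
  · by_contra hcon
    have hz : ∀ᶠ j in (φ : Filter ℕ), c' i j = 0 := by
      rcases Ultrafilter.eventually_or.1 (Filter.Eventually.of_forall fun j =>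
        (em (c' i j = 0)) : ∀ᶠ j in (φ : Filter ℕ), c' i j = 0 ∨ ¬ c' i j = 0) with h | h
      · exact h
      · exact absurd h hcon
    refine hsm (s.erase i) (Finset.card_erase_lt_of_mem hi)
      ⟨fun k hk => hs1 k (Finset.mem_of_mem_erase hk), c', hc', ?_⟩
    filter_upwards [he, hz] with j hj hj0
    rw [← hj, ← Finset.add_sum_erase s _ hi, hj0, zero_mul, zero_add]
  · refine hsm (s.erase i₀) (Finset.card_erase_lt_of_mem hi₀)
      ⟨fun k hk => hs1 k (Finset.mem_of_mem_erase hk),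
        fun i j => c' i j + (-(α i / α i₀)) * c' i j, fun i =>
        (h2 _ _ (hc' i) (h2 _ _ (h1 (-(α i / α i₀))) (hc' i)).2).1, ?_⟩
    filter_upwards [he, h0] with j hj hj0
    rw [← hj]
    rw [← Finset.add_sum_erase s _ hi₀] at hj0 ⊢
    have h4 : ∑ i ∈ s.erase i₀, (c' i j + (-(α i / α i₀)) * c' i j) * a i j
        = ∑ i ∈ s.erase i₀, c' i j * a i j
          - (1 / α i₀) * ∑ i ∈ s.erase i₀, α i * (c' i j * a i j) := by
      rw [Finset.mul_sum, ← Finset.sum_sub_distrib]
      refine Finset.sum_congr rfl fun i _ => ?_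
      field_simp
      ring
    rw [h4, eq_neg_of_add_eq_zero_right hj0]
    field_simp
    ring

end

theorem DOMW (hMODW : ST_MODW) (hSLW : ST_SLW) (hSPW : ST_SPW) : ST_DOMW := by
  classical
  intro M _ _ _ S P φ n t δ w c a x hS hn hδ hδn hX hw ha hc hsz hsum
  have hnn := mem_none (S := S)
  obtain ⟨-, -, -, -, -, -, -, hpow, -⟩ := Pool.Agent.Helper94.SUBK.SVB M
  obtain ⟨h1, h2, -, -, h5, h6, -⟩ := hSLW M S P φ (fun j => |(x j : ℝ)|) hS hX
  obtain ⟨-, -, -, p4, -, p6, p7, p8, -, -, -, p12, -⟩ :=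
    hSPW M S P φ (fun j => |(x j : ℝ)|) hS hX
  -- sizes
  have hn0 : (0 : ℝ) < n := by exact_mod_cast hn
  have ht0 : (0 : ℝ) ≤ t := Nat.cast_nonneg t
  have hsz' : ∀ᶠ j in (φ : Filter ℕ), ∀ i, P.nv none (c i j * a i j)
      ≤ P.nv none (w j) ^ ((n : ℝ) - δ) := Filter.eventually_all.2 hsz
  have hW : ∀ᶠ j in (φ : Filter ℕ), 1 < P.nv none (w j) ∧
      |(x j : ℝ)| ≤ (1 + t) * P.nv none (w j) ^ n := by
    filter_upwards [hw, hsz', hsum, hX.eventually_gt_atTop (1 + (t : ℝ))] with j hj1 hj2 hj3 hj4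
    have hpos := P.pos none hnn (w j) hj1.1
    have h3 : |(x j : ℝ)| ≤ P.nv none (w j) ^ n + t * P.nv none (w j) ^ ((n : ℝ) - δ) := by
      rw [← nv_int P (x j), ← hj3]
      refine (P.add none hnn _ _).trans (add_le_add (nv_pow' P hnn _ _).le ?_)
      refine (nv_sum_le P hnn _ _).trans ((Finset.sum_le_sum fun i _ => hj2 i).trans ?_)
      rw [Finset.sum_const, Finset.card_univ, Fintype.card_fin, nsmul_eq_mul]
    have hW1 : 1 < P.nv none (w j) := by
      by_contra hcon
      have hle := not_lt.1 hcon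
      have h4 : P.nv none (w j) ^ n ≤ 1 := pow_le_one₀ hpos.le hle
      have h5 : P.nv none (w j) ^ ((n : ℝ) - δ) ≤ 1 :=
        Real.rpow_le_one hpos.le hle (by linarith)
      nlinarith
    refine ⟨hW1, h3.trans ?_⟩
    have h6 : P.nv none (w j) ^ ((n : ℝ) - δ) ≤ P.nv none (w j) ^ n := by
      rw [← Real.rpow_natCast (P.nv none (w j)) n]
      exact Real.rpow_le_rpow_of_exponent_le hW1.le (by linarith)
    nlinarith
  obtain ⟨s, c', hs1, hc', he, hne, hmin⟩ := exists_rep hSLW P hS φ _ hX c a hc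
  -- the family is independent over the constants
  have hind : ∀ b : Option s → M, b ≠ 0 → ¬ ∀ᶠ j in (φ : Filter ℕ),
      ∑ i : Option s, b i * ((fun (i : Option s) (j : ℕ) => i.elim (1 : M) fun k => c' k j) i j *
        (fun (i : Option s) (j : ℕ) => i.elim (w j ^ n) fun k => a k j) i j) = 0 := by
    intro b hb h0
    set α : Fin t → M := fun i => if h : i ∈ s then b (some ⟨i, h⟩) else 0 with hα
    have hαs : ∀ i : s, b (some i) = α i := fun i => by
      rw [hα]; simp only [i.2, dif_pos]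
    have h0' : ∀ᶠ j in (φ : Filter ℕ),
        b none * w j ^ n + ∑ i ∈ s, α i * (c' i j * a i j) = 0 := by
      filter_upwards [h0] with j hj
      rw [Fintype.sum_option] at hj
      simp only [Option.elim, one_mul] at hj
      rw [← hj, ← Finset.sum_coe_sort s]
      congr 1
      exact Finset.sum_congr rfl fun i _ => by rw [hαs i]
    by_cases hb0 : b none = 0
    · obtain ⟨i, hi⟩ : ∃ i : s, b (some i) ≠ 0 := by
        by_contra hcon
        apply hb
        funext i
        rcases i with _ | i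
        · exact hb0
        · exact not_not.1 fun h => hcon ⟨i, h⟩
      refine hmin α i i.2 (by rw [← hαs i]; exact hi) ?_
      filter_upwards [h0'] with j hj
      rwa [hb0, zero_mul, zero_add] at hj
    · -- comparison of sizes
      set e : ℝ := δ / (4 * n) with hedef
      have he0 : 0 < e := by positivity
      have hup : ∀ᶠ j in (φ : Filter ℕ), ∀ i, P.nv none (c' i j) ≤ |(x j : ℝ)| ^ e :=
        Filter.eventually_all.2 fun i => h5 (c' i) (hc' i) none hnn 1 e he0
      have hlo : ∀ᶠ j in (φ : Filter ℕ), ∀ i ∈ s,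
          P.nv none (a i j) ≤ |(x j : ℝ)| ^ e * P.nv none (w j) ^ ((n : ℝ) - δ) := by
        rw [Filter.eventually_all_finset]
        intro i hi
        have hci : ∀ᶠ j in (φ : Filter ℕ), c i j ≠ 0 := Ultrafilter.eventually_not.2 (hs1 i hi)
        filter_upwards [h6 (c i) (hc i) hci none hnn 1 e he0, hsz', hX.eventually_gt_atTop 0]
          with j hj1 hj2 hj3
        have hj1' : |(x j : ℝ)| ^ (-e) ≤ P.nv none (c i j) := hj1
        have h7 := hj2 i
        rw [P.mul none hnn] at h7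
        have h8 : |(x j : ℝ)| ^ (-e) * P.nv none (a i j)
            ≤ P.nv none (w j) ^ ((n : ℝ) - δ) :=
          (mul_le_mul_of_nonneg_right hj1' (P.nn _ _)).trans h7
        have hxe : 0 < |(x j : ℝ)| ^ e := Real.rpow_pos_of_pos hj3 _
        rw [Real.rpow_neg hj3.le] at h8
        calc P.nv none (a i j) = |(x j : ℝ)| ^ e * ((|(x j : ℝ)| ^ e)⁻¹ * P.nv none (a i j)) := by
              rw [← mul_assoc, mul_inv_cancel₀ hxe.ne', one_mul]
          _ ≤ _ := mul_le_mul_of_nonneg_left h8 hxe.le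
      set C : ℝ := ∑ i ∈ s, P.nv none (α i) / P.nv none (b none) with hC
      have hb1 : 0 < P.nv none (b none) := P.pos none hnn _ hb0
      have hC0 : 0 ≤ C := Finset.sum_nonneg fun i _ => div_nonneg (P.nn _ _) hb1.le
      -- the bound `W ^ δ ≤ C X ^ (2 e)`
      have hfin : ∀ᶠ j in (φ : Filter ℕ),
          |(x j : ℝ)| ≤ (1 + t) * (C ^ ((n : ℝ) / δ) * |(x j : ℝ)| ^ (1 / 2 : ℝ)) := by
        filter_upwards [h0', hup, hlo, hW, hX.eventually_gt_atTop 0] with j hj1 hj2 hj3 hj4 hj5
        obtain ⟨hW1, hW2⟩ := hj4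
        have hW0 : 0 < P.nv none (w j) := by linarith
        have h9 : b none * w j ^ n = -∑ i ∈ s, α i * (c' i j * a i j) :=
          eq_neg_of_add_eq_zero_left hj1
        have h10 : P.nv none (b none) * P.nv none (w j) ^ n
            ≤ ∑ i ∈ s, P.nv none (α i) * (|(x j : ℝ)| ^ e *
              (|(x j : ℝ)| ^ e * P.nv none (w j) ^ ((n : ℝ) - δ))) := by
          rw [← nv_pow' P hnn, ← P.mul none hnn, h9]
          have hneg : P.nv none (-∑ i ∈ s, α i * (c' i j * a i j))
              = P.nv none (∑ i ∈ s, α i * (c' i j * a i j)) := by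
            rw [P.inf, P.inf, map_neg, norm_neg]
          rw [hneg]
          refine (nv_sum_le P hnn _ _).trans (Finset.sum_le_sum fun i hi => ?_)
          rw [P.mul none hnn, P.mul none hnn]
          refine mul_le_mul_of_nonneg_left ?_ (P.nn _ _)
          exact mul_le_mul (hj2 i) (hj3 i hi) (P.nn _ _) (Real.rpow_nonneg hj5.le _)
        have h11 : P.nv none (w j) ^ n
            ≤ C * |(x j : ℝ)| ^ (2 * e) * P.nv none (w j) ^ ((n : ℝ) - δ) := by
          have h12 : |(x j : ℝ)| ^ (2 * e) = |(x j : ℝ)| ^ e * |(x j : ℝ)| ^ e := by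
            rw [← Real.rpow_add hj5]; ring_nf
          have h13 : P.nv none (b none) * (C * |(x j : ℝ)| ^ (2 * e) *
              P.nv none (w j) ^ ((n : ℝ) - δ)) = ∑ i ∈ s, P.nv none (α i) * (|(x j : ℝ)| ^ e *
              (|(x j : ℝ)| ^ e * P.nv none (w j) ^ ((n : ℝ) - δ))) := by
            rw [h12, hC, ← Finset.sum_div, ← Finset.sum_mul]
            field_simp
          rw [← h13] at h10
          exact le_of_mul_le_mul_left h10 hb1
        have h14 : P.nv none (w j) ^ δ ≤ C * |(x j : ℝ)| ^ (2 * e) := by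
          have h15 : P.nv none (w j) ^ n
              = P.nv none (w j) ^ δ * P.nv none (w j) ^ ((n : ℝ) - δ) := by
            rw [← Real.rpow_add hW0, ← Real.rpow_natCast]; ring_nf
          rw [h15] at h11
          exact le_of_mul_le_mul_right h11 (Real.rpow_pos_of_pos hW0 _)
        have h16 : P.nv none (w j) ^ n ≤ C ^ ((n : ℝ) / δ) * |(x j : ℝ)| ^ (1 / 2 : ℝ) := by
          have h17 := Real.rpow_le_rpow (Real.rpow_nonneg hW0.le _) h14
            (by positivity : 0 ≤ (n : ℝ) / δ)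
          rw [← Real.rpow_mul hW0.le, Real.mul_rpow hC0 (Real.rpow_nonneg hj5.le _),
            ← Real.rpow_mul hj5.le] at h17
          have h18 : δ * ((n : ℝ) / δ) = n := by field_simp
          have h19 : 2 * e * ((n : ℝ) / δ) = 1 / 2 := by
            rw [hedef]; field_simp; norm_num
          rw [h18, h19, Real.rpow_natCast] at h17
          exact h17
        exact hW2.trans (mul_le_mul_of_nonneg_left h16 (by linarith))
      -- contradiction for large `X`
      set K : ℝ := (1 + t) * C ^ ((n : ℝ) / δ) with hK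
      have hbig := hX.eventually_gt_atTop (max 1 (K ^ 2))
      obtain ⟨j, hj1, hj2⟩ := (hfin.and hbig).exists
      have hj3 : 1 < |(x j : ℝ)| := lt_of_le_of_lt (le_max_left _ _) hj2
      have hj4 : K ^ 2 < |(x j : ℝ)| := lt_of_le_of_lt (le_max_right _ _) hj2
      have hx0 : 0 < |(x j : ℝ)| := by linarith
      have hs2 : |(x j : ℝ)| ^ (1 / 2 : ℝ) * |(x j : ℝ)| ^ (1 / 2 : ℝ) = |(x j : ℝ)| := by
        rw [← Real.rpow_add hx0]; norm_num
      have hs3 : 0 < |(x j : ℝ)| ^ (1 / 2 : ℝ) := Real.rpow_pos_of_pos hx0 _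
      have hj5 : |(x j : ℝ)| ^ (1 / 2 : ℝ) * |(x j : ℝ)| ^ (1 / 2 : ℝ)
          ≤ K * |(x j : ℝ)| ^ (1 / 2 : ℝ) := by
        rw [hs2, hK, mul_assoc]; exact hj1
      have hj6 := le_of_mul_le_mul_right hj5 hs3
      nlinarith
  -- application of MODW
  have hmu := hMODW M S P φ (fun j => |(x j : ℝ)|) (Option s)
    (fun i j => i.elim (1 : M) fun k => c' k j) (fun i j => i.elim (w j ^ n) fun k => a k j) x 1
    hS hX (fun i => by
      rcases i with _ | i
      · exact h1 1
      · exact hc' i) (fun i => by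
      rcases i with _ | i
      · exact Filter.Eventually.of_forall fun j => one_ne_zero
      · exact hne i i.2) (fun i => by
      rcases i with _ | i
      · filter_upwards [hw] with j hj
        have h21 := hpow S (w j) (n : ℤ) hj
        rw [zpow_natCast] at h21
        exact h21
      · exact ha i) (by
      filter_upwards [he, hsum] with j hj1 hj2
      refine ⟨?_, by rw [Real.rpow_one]⟩
      rw [Fintype.sum_option]
      simp only [Option.elim, one_mul]
      rw [Finset.sum_coe_sort s (fun i => c' i j * a i j), hj1, hj2]) hind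
  refine ⟨p4 w n (by omega) hw (hmu none), ?_⟩
  have hsp : ∀ s' : Finset (Fin t), s' ⊆ s →
      SpM P φ (fun j => |(x j : ℝ)|) (fun j => ∑ i ∈ s', c' i j * a i j) := by
    intro s'
    induction s' using Finset.induction_on with
    | empty =>
      intro _
      refine p6 _ ?_
      simpa using h1 0
    | insert i s' hi ih =>
      intro hss
      have hi' : i ∈ s := hss (Finset.mem_insert_self _ _)
      have h20 := (p8 _ _ (p8 _ _ (p6 _ (hc' i)) (p7 _ (hmu (some ⟨i, hi'⟩)))).2
        (ih fun k hk => hss (Finset.mem_insert_of_mem hk))).1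
      refine (p12 _ _ (Filter.Eventually.of_forall fun j => ?_)).1 h20
      rw [Finset.sum_insert hi]
      rfl
  exact (p12 _ _ he).1 (hsp s (le_refl _))

end Pool.Agent.Helper99.SUBW
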